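import Pool.Agent.Helper66.PD.Stmts

/-! Row EDG: covering elements of the nested Kelly poset are in a common bag (helper62). -/

set_option autoImplicit false

namespace Pool.Agent.Helper66.PD

variable {k n : ℕ}

/-- normal form of a coordinate vector at level `j` -/
def edg_nz (j : Fin k) (a : Fin k → Fin n) : Fin k → Fin n :=
  fun i => if i < j then ⟨0, lt_of_le_of_lt (Nat.zero_le _) (a i).isLt⟩ else a i

theorem edg_nz_norm (j : Fin k) (a : Fin k → Fin n) (i : Fin k) (hi : i < j) :
    (edg_nz j a i : ℕ) = 0 := by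
  simp [edg_nz, hi]

theorem edg_nz_ag (j : Fin k) (a : Fin k → Fin n) : ag j a (edg_nz j a) := by
  intro i hi
  have : ¬ i < j := not_lt.2 hi.le
  simp [edg_nz, this]

theorem edg_nz_j (j : Fin k) (a : Fin k → Fin n) : edg_nz j a j = a j := by
  simp [edg_nz]

theorem edg_ag_symm {j : Fin k} {a b : Fin k → Fin n} (h : ag j a b) : ag j b a :=
  fun i hi => (h i hi).symm

theorem edg_upd_norm (j : Fin k) (a : Fin k → Fin n) (x : Fin n)
    (h : ∀ i, i < j → (a i : ℕ) = 0) (i : Fin k) (hi : i < j) :
    (Function.update a j x i : ℕ) = 0 := by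
  rw [Function.update_of_ne hi.ne]
  exact h i hi

theorem edg_upd_ag (j : Fin k) (a : Fin k → Fin n) (x : Fin n) :
    ag j a (Function.update a j x) := by
  intro i hi
  rw [Function.update_of_ne hi.ne']

theorem edg_lt {u v : Q k n} (h : u.1.le v.1) (hne : u.1 ≠ v.1) : u < v :=
  lt_of_le_of_ne (show u ≤ v from h) (fun e => hne (congrArg Subtype.val e))

/-- the highest coordinate where two vectors differ -/
theorem edg_top {a b : Fin k → Fin n} (h : a ≠ b) : ∃ j, ag j a b ∧ a j ≠ b j := by
  classical
  obtain ⟨i, hi⟩ := Function.ne_iff.1 h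
  obtain ⟨j, hj, hmax⟩ := Finset.exists_max_image (Finset.univ.filter fun i => a i ≠ b i) id
    ⟨i, by simp [hi]⟩
  refine ⟨j, fun l hl => ?_, (Finset.mem_filter.1 hj).2⟩
  by_contra hne
  have := hmax l (by simp [hne])
  exact absurd hl (not_lt.2 this)

theorem edg_rail {j j' : Fin k} {a b : Fin k → Fin n} (h : U.R j a = U.R j' b) : a = b := by
  injection h

theorem edg_raill {j j' : Fin k} {a b : Fin k → Fin n} (h : U.L j a = U.L j' b) : a = b := by
  injection h

theorem edg_main (u v : U k n) (hu : u.Norm) (hle : u.le v) (hne : u ≠ v)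
    (hb : ∀ w : U k n, w.Norm → u.le w → u ≠ w → w.le v → w ≠ v → False) :
    ∃ c, Act c u ∧ Act c v := by
  rcases u with a | a | ⟨j, a⟩ | ⟨j, a⟩
  · rcases v with b | b | ⟨j, b⟩ | ⟨j, b⟩
    · exact absurd (congrArg U.X (show a = b from hle)) hne
    · exfalso
      obtain ⟨j, h1, h2⟩ := edg_top (show a ≠ b from hle)
      rcases lt_or_gt_of_ne h2 with h3 | h3
      · refine hb (U.R j (edg_nz j a)) (edg_nz_norm j a) ⟨edg_nz_ag j a, ?_⟩ (by simp)
          ⟨ag_trans (edg_ag_symm (edg_nz_ag j a)) h1, ?_⟩ (by simp)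
        · rw [edg_nz_j]
        · rw [edg_nz_j]; exact h3
      · refine hb (U.L j (edg_nz j a)) (edg_nz_norm j a) ⟨edg_nz_ag j a, ?_⟩ (by simp)
          ⟨ag_trans (edg_ag_symm (edg_nz_ag j a)) h1, ?_⟩ (by simp)
        · rw [edg_nz_j]
        · rw [edg_nz_j]; exact h3
    · obtain ⟨h1, h2⟩ : ag j a b ∧ a j ≤ b j := hle
      rcases h2.eq_or_lt with h3 | h3
      · exact ⟨a, rfl, h1, Or.inl (by rw [h3])⟩
      · exfalso
        refine hb (U.R j (edg_nz j a)) (edg_nz_norm j a) ⟨edg_nz_ag j a, ?_⟩ (by simp)
          ⟨rfl, ag_trans (edg_ag_symm (edg_nz_ag j a)) h1, ?_⟩ ?_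
        · rw [edg_nz_j]
        · rw [edg_nz_j]; exact h2
        · intro e
          have := congrFun (edg_rail e) j
          rw [edg_nz_j] at this
          exact h3.ne this
    · obtain ⟨h1, h2⟩ : ag j a b ∧ b j ≤ a j := hle
      rcases h2.eq_or_lt with h3 | h3
      · exact ⟨a, rfl, h1, Or.inl (by rw [h3])⟩
      · exfalso
        refine hb (U.L j (edg_nz j a)) (edg_nz_norm j a) ⟨edg_nz_ag j a, ?_⟩ (by simp)
          ⟨rfl, ag_trans (edg_ag_symm (edg_nz_ag j a)) h1, ?_⟩ ?_
        · rw [edg_nz_j]
        · rw [edg_nz_j]; exact h2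
        · intro e
          have := congrFun (edg_raill e) j
          rw [edg_nz_j] at this
          exact h3.ne this.symm
  · rcases v with b | b | ⟨j, b⟩ | ⟨j, b⟩
    · exact absurd hle (by simp [U.le])
    · exact absurd (congrArg U.Y (show a = b from hle)) hne
    · exact absurd hle (by simp [U.le])
    · exact absurd hle (by simp [U.le])
  · rcases v with b | b | ⟨j', b⟩ | ⟨j', b⟩
    · exact absurd hle (by simp [U.le])
    · obtain ⟨h1, h2⟩ : ag j a b ∧ a j < b j := hle
      by_cases h3 : (b j : ℕ) = a j + 1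
      · exact ⟨b, ⟨edg_ag_symm h1, Or.inr h3⟩, rfl⟩
      · exfalso
        have h4 : (a j : ℕ) < b j := h2
        have h5 : (a j : ℕ) + 1 < b j := by omega
        have h6 : (a j : ℕ) + 1 < n := h5.trans (b j).isLt
        refine hb (U.R j (Function.update a j ⟨a j + 1, h6⟩))
          (edg_upd_norm j a _ hu) ⟨rfl, edg_upd_ag j a _, ?_⟩ ?_
          ⟨ag_trans (edg_ag_symm (edg_upd_ag j a _)) h1, ?_⟩ (by simp)
        · rw [Function.update_self]
          exact Fin.le_def.2 (by simp)
        · intro e
          have := congrArg Fin.val (congrFun (edg_rail e) j)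
          rw [Function.update_self] at this
          simp at this
        · rw [Function.update_self]
          exact Fin.lt_def.2 h5
    · obtain ⟨rfl, h1, h2⟩ : j = j' ∧ ag j a b ∧ a j ≤ b j := hle
      have h2' : (a j : ℕ) ≤ b j := h2
      by_cases h3 : (b j : ℕ) ≤ a j + 1
      · exact ⟨b, ⟨edg_ag_symm h1, by omega⟩, fun i _ => rfl, Or.inl rfl⟩
      · exfalso
        have h5 : (a j : ℕ) + 1 < b j := by omega
        have h6 : (a j : ℕ) + 1 < n := h5.trans (b j).isLt
        refine hb (U.R j (Function.update a j ⟨a j + 1, h6⟩))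
          (edg_upd_norm j a _ hu) ⟨rfl, edg_upd_ag j a _, ?_⟩ ?_
          ⟨rfl, ag_trans (edg_ag_symm (edg_upd_ag j a _)) h1, ?_⟩ ?_
        · rw [Function.update_self]
          exact Fin.le_def.2 (by simp)
        · intro e
          have := congrArg Fin.val (congrFun (edg_rail e) j)
          rw [Function.update_self] at this
          simp at this
        · rw [Function.update_self]
          exact Fin.le_def.2 h5.le
        · intro e
          have := congrArg Fin.val (congrFun (edg_rail e) j)
          rw [Function.update_self] at this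
          simp only at this
          omega
    · exact absurd hle (by simp [U.le])
  · rcases v with b | b | ⟨j', b⟩ | ⟨j', b⟩
    · exact absurd hle (by simp [U.le])
    · obtain ⟨h1, h2⟩ : ag j a b ∧ b j < a j := hle
      by_cases h3 : (b j : ℕ) + 1 = a j
      · exact ⟨b, ⟨edg_ag_symm h1, Or.inr h3⟩, rfl⟩
      · exfalso
        have h4 : (b j : ℕ) < a j := h2
        have h5 : (b j : ℕ) + 1 < a j := by omega
        have h6 : (b j : ℕ) + 1 < n := h5.trans (a j).isLt
        refine hb (U.L j (Function.update a j ⟨b j + 1, h6⟩))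
          (edg_upd_norm j a _ hu) ⟨rfl, edg_upd_ag j a _, ?_⟩ ?_
          ⟨ag_trans (edg_ag_symm (edg_upd_ag j a _)) h1, ?_⟩ (by simp)
        · rw [Function.update_self]
          exact Fin.le_def.2 h5.le
        · intro e
          have := congrArg Fin.val (congrFun (edg_raill e) j)
          rw [Function.update_self] at this
          simp only at this
          omega
        · rw [Function.update_self]
          exact Fin.lt_def.2 (by simp)
    · exact absurd hle (by simp [U.le])
    · obtain ⟨rfl, h1, h2⟩ : j = j' ∧ ag j a b ∧ b j ≤ a j := hle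
      have h2' : (b j : ℕ) ≤ a j := h2
      by_cases h3 : (a j : ℕ) ≤ b j + 1
      · exact ⟨b, ⟨edg_ag_symm h1, by omega⟩, fun i _ => rfl, Or.inl rfl⟩
      · exfalso
        have h5 : (b j : ℕ) + 1 < a j := by omega
        have h6 : (b j : ℕ) + 1 < n := h5.trans (a j).isLt
        refine hb (U.L j (Function.update a j ⟨b j + 1, h6⟩))
          (edg_upd_norm j a _ hu) ⟨rfl, edg_upd_ag j a _, ?_⟩ ?_
          ⟨rfl, ag_trans (edg_ag_symm (edg_upd_ag j a _)) h1, ?_⟩ ?_
        · rw [Function.update_self]
          exact Fin.le_def.2 h5.le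
        · intro e
          have := congrArg Fin.val (congrFun (edg_raill e) j)
          rw [Function.update_self] at this
          simp only at this
          omega
        · rw [Function.update_self]
          exact Fin.le_def.2 (by simp)
        · intro e
          have := congrArg Fin.val (congrFun (edg_raill e) j)
          rw [Function.update_self] at this
          simp at this

theorem st_EDG : ST_EDG := by
  intro k n u v huv
  refine edg_main u.1 v.1 u.2 huv.1.le (fun e => huv.1.ne (Subtype.ext e)) ?_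
  intro w hw h1 h2 h3 h4
  exact huv.2 (edg_lt (v := (⟨w, hw⟩ : Q k n)) h1 h2) (edg_lt (u := (⟨w, hw⟩ : Q k n)) h3 h4)

end Pool.Agent.Helper66.PD
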